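import Pool.Agent.Y537.SQ.Main

set_option autoImplicit false

/-!
# The infinite cardinals `λ` and the ordinals `β` with `λ² → (λ², β)²`

The starting file of the problem treats `β = 3`.  Here `β` is an arbitrary ordinal, and the two
parts which need no additional axiom are stated in ZFC.
-/

namespace Pool.Agent.Results.MP_af714c_lc.AllOrdinals

open Cardinal Ordinal Pool.Agent.H650R2.Sq Pool.Agent.Y537.SQ

universe u

/-- Let `λ` be an infinite cardinal.

(1) (ZFC) If `λ` is regular or a strong limit and `cf λ → (cf λ)²₂`, that is, the cofinality of `λ`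
is `ω` or a weakly compact cardinal, then `λ² → (λ², n)²` for all finite `n`.

(2) (ZFC) `λ² ↛ (λ², β)²` for all infinite ordinals `β`.

(3) Assume the generalized continuum hypothesis, and (only for the cofinality of `λ`, if that is an
inaccessible cardinal `κ` with `κ ↛ (κ)²₂`) that `κ` carries a nonreflecting stationary set with a
diamond sequence.  Both axioms hold in the constructible universe.  Then for every ordinal `β`
the relation `λ² → (λ², β)²` holds if and only if `β ≤ 2`, or `β` is finite and
`cf λ → (cf λ)²₂`. -/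
theorem result (lam : Cardinal.{u}) (hlam : ℵ₀ ≤ lam) :
    ((lam.IsRegular ∨ ∀ c < lam, (2 : Cardinal.{u}) ^ c < lam) →
      Arrow lam.ord.cof.ord lam.ord.cof.ord lam.ord.cof.ord →
      ∀ n : ℕ, Arrow (lam.ord * lam.ord) (lam.ord * lam.ord) n) ∧
    (∀ β : Ordinal.{u}, ω ≤ β → ¬ Arrow (lam.ord * lam.ord) (lam.ord * lam.ord) β) ∧
    ((∀ κ : Cardinal.{u}, ℵ₀ ≤ κ → (2 : Cardinal.{u}) ^ κ = Order.succ κ) →
      (lam.ord.cof.IsInaccessible →
        ¬ Arrow lam.ord.cof.ord lam.ord.cof.ord lam.ord.cof.ord →
        NonreflectingDiamond lam.ord.cof) →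
      ∀ β : Ordinal.{u}, Arrow (lam.ord * lam.ord) (lam.ord * lam.ord) β ↔
        β ≤ 2 ∨ (β < ω ∧ Arrow lam.ord.cof.ord lam.ord.cof.ord lam.ord.cof.ord)) := by
  refine ⟨fun hl h n => positive n hlam hl h, fun β hβ => not_arrow_omega hlam hβ, ?_⟩
  intro gch hd β
  have hl : lam.IsRegular ∨ ∀ c < lam, (2 : Cardinal.{u}) ^ c < lam := by
    by_cases hr : lam.IsRegular
    · exact Or.inl hr
    · right
      intro c hc
      have hs : lam.IsSingular := IsSingular.of_not_isRegular hlam hr
      rcases lt_or_ge c ℵ₀ with h | h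
      · exact (Cardinal.power_lt_aleph0 (natCast_lt_aleph0 (n := 2)) h).trans_le hlam
      · rw [gch c h]
        exact hs.isSuccLimit.succ_lt hc
  constructor
  · intro h
    have hfin : β < ω := not_le.1 fun hβ => not_arrow_omega hlam hβ h
    by_cases h2 : β ≤ 2
    · exact Or.inl h2
    · right
      refine ⟨hfin, (main gch lam hlam hd).1 (Arrow.mono_right h ?_)⟩
      obtain ⟨n, rfl⟩ := lt_omega0.1 hfin
      have h3 : ¬ n ≤ 2 := fun h => h2 (by exact_mod_cast h)
      have h4 : 3 ≤ n := by omega
      exact_mod_cast h4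
  · rintro (h2 | ⟨hfin, hA⟩)
    · exact Arrow.mono_right (arrow_two _) h2
    · obtain ⟨n, rfl⟩ := lt_omega0.1 hfin
      exact positive n hlam hl hA

end Pool.Agent.Results.MP_af714c_lc.AllOrdinals
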